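import Mathlib

/-!
# A quadratic equation without rational roots

Elementary lemmas: `(a + t^2) r0^2 - 2 b r0 r1 + (c + t) r1^2 = 0` has only the zero solution in
polynomials in `t` (parity of degrees), and a quadratic equation over power series whose lowest
order terms have only the zero solution has only the zero solution (descent).
-/

namespace Pool.Agent.Helper77.HN

open Polynomial

theorem quad_zero {L : Type*} [Field L] (a b c : L) (r0 r1 : L[X])
    (h : (C a + X ^ 2) * r0 ^ 2 - 2 * C b * r0 * r1 + (C c + X) * r1 ^ 2 = 0) :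
    r0 = 0 ∧ r1 = 0 := by
  have hA : (C a + X ^ 2 : L[X]) ≠ 0 := by
    intro h0
    have := congrArg (fun p => coeff p 2) h0
    simp at this
  have h1 : r1 = 0 := by
    by_contra hr
    have key : ((C a + X ^ 2) * r0 - C b * r1) ^ 2 =
        (C (b ^ 2) - (C a + X ^ 2) * (C c + X)) * r1 ^ 2 := by
      rw [C_pow]
      linear_combination (C a + X ^ 2) * h
    set P : L[X] := C (b ^ 2) - (C a + X ^ 2) * (C c + X) with hP
    have hPe : P = C (-1) * X ^ 3 + C (-c) * X ^ 2 + C (-a) * X + C (b ^ 2 - a * c) := by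
      rw [hP]
      simp only [C_sub, C_neg, C_mul, C_pow, map_one]
      ring
    have hPd : P.natDegree = 3 := by
      rw [hPe]
      exact natDegree_cubic (by norm_num)
    have hP0 : P ≠ 0 := by
      intro h0
      rw [h0, natDegree_zero] at hPd
      omega
    have e := congrArg natDegree key
    rw [natDegree_pow, natDegree_mul hP0 (pow_ne_zero 2 hr), natDegree_pow, hPd] at e
    omega
  refine ⟨?_, h1⟩
  rw [h1] at h
  have h2 : (C a + X ^ 2) * r0 ^ 2 = 0 := by linear_combination h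
  rcases mul_eq_zero.1 h2 with h3 | h3
  · exact absurd h3 hA
  · exact pow_eq_zero_iff (two_ne_zero) |>.1 h3

theorem descent {S : Type*} [CommRing S] [IsDomain S] (A B E : S[X]) (hA : A.coeff 0 = 0)
    (hB : B.coeff 0 = 0) (hE : E.coeff 0 = 0)
    (hq : ∀ s0 s1 : S, A.coeff 1 * s0 ^ 2 - 2 * B.coeff 1 * s0 * s1 + E.coeff 1 * s1 ^ 2 = 0 →
      s0 = 0 ∧ s1 = 0) (R0 R1 : S[X])
    (h : A * R0 ^ 2 - 2 * B * R0 * R1 + E * R1 ^ 2 = 0) : R0 = 0 ∧ R1 = 0 := by
  obtain ⟨A', rfl⟩ := X_dvd_iff.2 hA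
  obtain ⟨B', rfl⟩ := X_dvd_iff.2 hB
  obtain ⟨E', rfl⟩ := X_dvd_iff.2 hE
  have hX : (X : S[X]) ≠ 0 := X_ne_zero
  have h' : A' * R0 ^ 2 - 2 * B' * R0 * R1 + E' * R1 ^ 2 = 0 := by
    refine mul_left_cancel₀ hX ?_
    rw [mul_zero]
    linear_combination h
  simp only [coeff_X_mul] at hq
  have main : ∀ (n : ℕ) (R0 R1 : S[X]), A' * R0 ^ 2 - 2 * B' * R0 * R1 + E' * R1 ^ 2 = 0 →
      X ^ n ∣ R0 ∧ X ^ n ∣ R1 := by
    intro n
    induction n with
    | zero => intro R0 R1 _; simp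
    | succ n ih =>
      intro R0 R1 hR
      have e0 := congrArg (fun p => eval 0 p) hR
      simp only [eval_add, eval_sub, eval_mul, eval_pow, eval_ofNat, eval_zero] at e0
      simp only [← coeff_zero_eq_eval_zero] at e0
      obtain ⟨h0, h1⟩ := hq _ _ e0
      obtain ⟨R0', rfl⟩ := X_dvd_iff.2 h0
      obtain ⟨R1', rfl⟩ := X_dvd_iff.2 h1
      have e1 : A' * R0' ^ 2 - 2 * B' * R0' * R1' + E' * R1' ^ 2 = 0 := by
        refine mul_left_cancel₀ (pow_ne_zero 2 hX) ?_
        rw [mul_zero]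
        linear_combination hR
      obtain ⟨⟨a, ha⟩, ⟨b, hb⟩⟩ := ih R0' R1' e1
      exact ⟨⟨a, by rw [ha]; ring⟩, ⟨b, by rw [hb]; ring⟩⟩
  have hz : ∀ R : S[X], (∀ n, X ^ n ∣ R) → R = 0 := by
    intro R hR
    ext n
    rw [coeff_zero]
    exact X_pow_dvd_iff.1 (hR (n + 1)) n (Nat.lt_succ_self n)
  exact ⟨hz _ fun n => (main n R0 R1 h').1, hz _ fun n => (main n R0 R1 h').2⟩

/-- Quadratic polynomials which agree at three points. -/
theorem quad_eq3 {L : Type*} [Field L] {a b c z1 z2 z3 : L} (h12 : z1 - z2 ≠ 0)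
    (h13 : z1 - z3 ≠ 0) (h23 : z2 - z3 ≠ 0) (h1 : a * z1 ^ 2 + b * z1 + c = 0)
    (h2 : a * z2 ^ 2 + b * z2 + c = 0) (h3 : a * z3 ^ 2 + b * z3 + c = 0) :
    a = 0 ∧ b = 0 ∧ c = 0 := by
  have e1 : (z1 - z2) * (a * (z1 + z2) + b) = 0 := by linear_combination h1 - h2
  have e2 : (z1 - z3) * (a * (z1 + z3) + b) = 0 := by linear_combination h1 - h3
  have e3 := (mul_eq_zero.1 e1).resolve_left h12
  have e4 := (mul_eq_zero.1 e2).resolve_left h13
  have e5 : (z2 - z3) * a = 0 := by linear_combination e3 - e4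
  have ha := (mul_eq_zero.1 e5).resolve_left h23
  have hb : b = 0 := by rw [ha] at e3; linear_combination e3
  exact ⟨ha, hb, by rw [ha, hb] at h1; linear_combination h1⟩

end Pool.Agent.Helper77.HN
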