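import Mathlib
import Pool.Agent.Helper28.HN.Cfg
import Pool.Agent.Helper64.XI.Line
import Pool.Agent.Helper47.HN.Norm
import Pool.Agent.Helper94.HN.Nat
import Pool.Agent.Helper77.HN.Quad

/-!
# Project HN: tangent vectors at a configuration
-/

namespace Pool.Agent.Helper77.HN

open Pool.Agent.Helper28.HN

variable {m : ℕ}

section lin

variable {S : Type*} [CommRing S]

theorem lf_add (c : Ix m → S) (r : Fin m) (x x' y : I m → S) :
    lf c r (fun i => x i + x' i) y = lf c r x y + lf c r x' y := by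
  simp only [lf, mul_add, add_mul, Finset.sum_add_distrib]

theorem lf_smul (c : Ix m → S) (r : Fin m) (t : S) (x y : I m → S) :
    lf c r (fun i => t * x i) y = t * lf c r x y := by
  simp only [lf, Finset.mul_sum]
  refine Finset.sum_congr rfl fun i _ => Finset.sum_congr rfl fun j _ => ?_
  ring

theorem qf_add2 (c : Ix m → S) (x x' x'' y y' : I m → S) :
    qf c x (fun i => x' i + x'' i) y y' = qf c x x' y y' + qf c x x'' y y' := by
  simp only [qf, mul_add, add_mul, Finset.sum_add_distrib]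

theorem qf_smul2 (c : Ix m → S) (t : S) (x x' y y' : I m → S) :
    qf c x (fun i => t * x' i) y y' = t * qf c x x' y y' := by
  simp only [qf, Finset.mul_sum]
  refine Finset.sum_congr rfl fun i _ => Finset.sum_congr rfl fun j _ =>
    Finset.sum_congr rfl fun k _ => Finset.sum_congr rfl fun l _ => ?_
  ring

theorem qf_add4 (c : Ix m → S) (x x' y y' y'' : I m → S) :
    qf c x x' y (fun i => y' i + y'' i) = qf c x x' y y' + qf c x x' y y'' := by
  simp only [qf, mul_add, Finset.sum_add_distrib]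

theorem qf_smul4 (c : Ix m → S) (t : S) (x x' y y' : I m → S) :
    qf c x x' y (fun i => t * y' i) = t * qf c x x' y y' := by
  simp only [qf, Finset.mul_sum]
  refine Finset.sum_congr rfl fun i _ => Finset.sum_congr rfl fun j _ =>
    Finset.sum_congr rfl fun k _ => Finset.sum_congr rfl fun l _ => ?_
  ring

/-- The vector in `qh`. -/
noncomputable def yv (c : Ix m → S) (x ξ y : I m → S) : I m → S :=
  Fin.cons 0 (Fin.cons 0 (- ((Mx c x).adjugate.mulVec fun r => lf c r ξ y)))

theorem yv_add (c : Ix m → S) (x ξ ξ' y : I m → S) :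
    yv c x (fun i => ξ i + ξ' i) y = fun i => yv c x ξ y i + yv c x ξ' y i := by
  funext i
  refine Fin.cases ?_ (fun i => Fin.cases ?_ (fun i => ?_) i) i
  · simp only [yv, Fin.cons_zero, add_zero]
  · simp only [yv, Fin.cons_zero, Fin.cons_succ, add_zero]
  · simp only [yv, Fin.cons_succ, Pi.neg_apply, lf_add, Matrix.mulVec, dotProduct, mul_add,
      Finset.sum_add_distrib, neg_add]

theorem yv_smul (c : Ix m → S) (t : S) (x ξ y : I m → S) :
    yv c x (fun i => t * ξ i) y = fun i => t * yv c x ξ y i := by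
  funext i
  refine Fin.cases ?_ (fun i => Fin.cases ?_ (fun i => ?_) i) i
  · simp only [yv, Fin.cons_zero, mul_zero]
  · simp only [yv, Fin.cons_zero, Fin.cons_succ, mul_zero]
  · simp only [yv, Fin.cons_succ, Pi.neg_apply, lf_smul, Matrix.mulVec, dotProduct, mul_neg,
      Finset.mul_sum]
    congr 1
    refine Finset.sum_congr rfl fun r _ => ?_
    ring

theorem qh_add (c : Ix m → S) (x ξ ξ' : I m → S) (z : S) :
    qh c x (fun i => ξ i + ξ' i) z = qh c x ξ z + qh c x ξ' z := by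
  have h := yv_add c x ξ ξ' (yh c x z)
  unfold yv at h
  rw [qh, qh, qh, h, qf_add2, qf_add4]
  ring

theorem qh_smul (c : Ix m → S) (t : S) (x ξ : I m → S) (z : S) :
    qh c x (fun i => t * ξ i) z = t * qh c x ξ z := by
  have h := yv_smul c t x ξ (yh c x z)
  unfold yv at h
  rw [qh, qh, h, qf_smul2, qf_smul4]
  ring

end lin

section cfg

variable {L : Type*} [Field L]

/-- The conditions which are used. -/
structure Good (c : Ix m → L) (u : Fin (m + 1) → L) (z : Fin 3 → L) : Prop where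
  hD : (Mx c (aff u)).det ≠ 0
  hF : ∀ w, Fh c (aff u) w = 0
  hz : ∀ a b, a ≠ b → z a - z b ≠ 0
  h00 : qh c (aff u) (xz c u (z 0)) (z 0) = 0
  h11 : qh c (aff u) (xz c u (z 1)) (z 1) = 0
  h22 : qh c (aff u) (xz c u (z 2)) (z 2) = 0
  h01 : qh c (aff u) (xz c u (z 0)) (z 1) = 0
  h02 : qh c (aff u) (xz c u (z 0)) (z 2) ≠ 0
  h10 : qh c (aff u) (xz c u (z 1)) (z 0) ≠ 0
  h21 : qh c (aff u) (xz c u (z 2)) (z 1) ≠ 0

theorem good_of_cfg (hm : 4 ≤ m) (c : Ix m → L) (k : Un m → L)
    (hE : ∀ i, Eqn c k i = 0) (hP : Pp c k ≠ 0) :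
    Good c (fun i => k (.inl i)) ![k (.inr 1), k (.inr (Fin.last (m + 1))), k (.inr 2)] := by
  unfold Pp at hP
  obtain ⟨hP, -⟩ := mul_ne_zero_iff.1 hP
  obtain ⟨hP, hq⟩ := mul_ne_zero_iff.1 hP
  obtain ⟨hP, -⟩ := mul_ne_zero_iff.1 hP
  obtain ⟨hP, -⟩ := mul_ne_zero_iff.1 hP
  obtain ⟨hP, -⟩ := mul_ne_zero_iff.1 hP
  obtain ⟨hD, hz⟩ := mul_ne_zero_iff.1 hP
  rw [Finset.prod_ne_zero_iff] at hz hq
  have hz' : ∀ a b : Fin (m + 2), a ≠ b → k (.inr a) - k (.inr b) ≠ 0 := by
    intro a b hab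
    have := (Finset.prod_ne_zero_iff.1 (hz a (Finset.mem_univ a))) b (Finset.mem_univ b)
    rwa [if_neg hab] at this
  have hq' : ∀ a b : Fin (m + 2), a ≠ b → ¬ (a = 1 ∧ b = Fin.last (m + 1)) →
      qh c (aff fun i => k (.inl i)) (xz c (fun i => k (.inl i)) (k (.inr a))) (k (.inr b)) ≠ 0 := by
    intro a b hab hab'
    have := (Finset.prod_ne_zero_iff.1 (hq a (Finset.mem_univ a))) b (Finset.mem_univ b)
    rwa [if_neg (by tauto)] at this
  have hd : ∀ a, qh c (aff fun i => k (.inl i)) (xz c (fun i => k (.inl i)) (k (.inr a)))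
      (k (.inr a)) = 0 := by
    intro a
    have := hE (.inl a)
    simp only [Eqn] at this
    unfold xz
    rw [Helper64.XI.qh_psh, this, mul_zero]
  have v1 : ((1 : Fin (m + 2)) : ℕ) = 1 := by
    have h : ((1 : Fin (m + 2)) : ℕ) = 1 % (m + 2) := rfl
    rw [h]
    exact Nat.mod_eq_of_lt (by omega)
  have v2 : ((2 : Fin (m + 2)) : ℕ) = 2 := by
    have h : ((2 : Fin (m + 2)) : ℕ) = 2 % (m + 2) := rfl
    rw [h]
    exact Nat.mod_eq_of_lt (by omega)
  have v3 : ((Fin.last (m + 1) : Fin (m + 2)) : ℕ) = m + 1 := rfl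
  have n1l : (1 : Fin (m + 2)) ≠ Fin.last (m + 1) := by
    intro h; have := congrArg Fin.val h; rw [v1, v3] at this; omega
  have n12 : (1 : Fin (m + 2)) ≠ 2 := by
    intro h; have := congrArg Fin.val h; rw [v1, v2] at this; omega
  have n2l : (2 : Fin (m + 2)) ≠ Fin.last (m + 1) := by
    intro h; have := congrArg Fin.val h; rw [v2, v3] at this; omega
  have hA : Ah c (aff fun i => k (.inl i)) = 0 := hE (.inr (.inl 2))
  have hB : Bh c (aff fun i => k (.inl i)) = 0 := hE (.inr (.inl 3))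
  have hF0 : Fh c (aff fun i => k (.inl i)) (k (.inr 0)) = 0 := hE (.inr (.inl 1))
  have hC : Ch c (aff fun i => k (.inl i)) = 0 := by
    rw [Helper47.HN.Fh_eq, hA, hB] at hF0
    linear_combination hF0
  refine ⟨hD, ?_, ?_, hd 1, hd _, hd 2, hE (.inr (.inl 4)), ?_, ?_, ?_⟩
  · intro w
    rw [Helper47.HN.Fh_eq, hA, hB, hC]
    ring
  · intro a b hab
    fin_cases a <;> fin_cases b <;> first | exact absurd rfl hab | skip
    · exact hz' _ _ n1l
    · exact hz' _ _ n12
    · exact hz' _ _ n1l.symm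
    · exact hz' _ _ n2l.symm
    · exact hz' _ _ n12.symm
    · exact hz' _ _ n2l
  · exact hq' _ _ n12 fun h => n2l h.2
  · exact hq' _ _ n1l.symm fun h => n1l h.1.symm
  · exact hq' _ _ n2l fun h => n12 h.1.symm

/-- A tangent vector with prescribed values at the three roots. -/
theorem exists_w {c : Ix m → L} {u : Fin (m + 1) → L} {z : Fin 3 → L} (h : Good c u z)
    (τ : Fin 3 → L) : ∃ w : Fin (m + 1) → L, ∀ a, qh c (aff u) (Fin.cons 0 w) (z a) = τ a := by
  set q02 := qh c (aff u) (xz c u (z 0)) (z 2) with e02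
  set q10 := qh c (aff u) (xz c u (z 1)) (z 0) with e10
  set q12 := qh c (aff u) (xz c u (z 1)) (z 2) with e12
  set q20 := qh c (aff u) (xz c u (z 2)) (z 0) with e20
  set q21 := qh c (aff u) (xz c u (z 2)) (z 1) with e21
  have n02 : q02 ≠ 0 := h.h02
  have n10 : q10 ≠ 0 := h.h10
  have n21 : q21 ≠ 0 := h.h21
  set s2 := τ 1 / q21 with hs2
  set s1 := (τ 0 - s2 * q20) / q10 with hs1
  set s0 := (τ 2 - s1 * q12) / q02 with hs0
  refine ⟨fun i => s0 * vh c (yh c (aff u) (z 0)) i + (s1 * vh c (yh c (aff u) (z 1)) i +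
    s2 * vh c (yh c (aff u) (z 2)) i), ?_⟩
  have hv : ∀ t, qh c (aff u) (Fin.cons 0 fun i => s0 * vh c (yh c (aff u) (z 0)) i +
      (s1 * vh c (yh c (aff u) (z 1)) i + s2 * vh c (yh c (aff u) (z 2)) i)) t =
      s0 * qh c (aff u) (xz c u (z 0)) t + (s1 * qh c (aff u) (xz c u (z 1)) t +
        s2 * qh c (aff u) (xz c u (z 2)) t) := by
    intro t
    rw [← qh_smul, ← qh_smul, ← qh_smul, ← qh_add, ← qh_add]
    congr 1
    funext i
    refine Fin.cases ?_ (fun i => ?_) i
    · simp [xz, xh]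
    · simp [xz, xh]
  intro a
  rw [hv]
  fin_cases a
  · show s0 * qh c (aff u) (xz c u (z 0)) (z 0) + (s1 * q10 + s2 * q20) = τ 0
    rw [h.h00, hs1]
    field_simp
    ring
  · show s0 * qh c (aff u) (xz c u (z 0)) (z 1) + (s1 * qh c (aff u) (xz c u (z 1)) (z 1) +
      s2 * q21) = τ 1
    rw [h.h01, h.h11, hs2]
    field_simp
    ring
  · show s0 * q02 + (s1 * q12 + s2 * qh c (aff u) (xz c u (z 2)) (z 2)) = τ 2
    rw [h.h22, hs0]
    field_simp
    ring

/-- A tangent vector with a prescribed quadratic polynomial. -/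
theorem exists_wq {c : Ix m → L} {u : Fin (m + 1) → L} {z : Fin 3 → L} (h : Good c u z)
    (a b e : L) : ∃ w : Fin (m + 1) → L, ∀ t, qh c (aff u) (Fin.cons 0 w) t =
      a * t ^ 2 + b * t + e := by
  obtain ⟨w, hw⟩ := exists_w h fun i => a * z i ^ 2 + b * z i + e
  obtain ⟨b', e', hq⟩ := Helper64.XI.qh_eq c (aff u) (Fin.cons 0 w)
  refine ⟨w, fun t => ?_⟩
  obtain ⟨h1, h2, h3⟩ := quad_eq3 (a := qa c (aff u) (Fin.cons 0 w) - a) (b := b' - b)
    (c := e' - e) (h.hz 0 1 (by decide)) (h.hz 0 2 (by decide)) (h.hz 1 2 (by decide))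
    (by have := hw 0; rw [hq] at this; linear_combination this)
    (by have := hw 1; rw [hq] at this; linear_combination this)
    (by have := hw 2; rw [hq] at this; linear_combination this)
  rw [hq]
  linear_combination t ^ 2 * h1 + t * h2 + h3

end cfg

end Pool.Agent.Helper77.HN
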