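import Mathlib
import Pool.Agent.Helper77.HN.Square

/-!
# Project HN: the general member is irreducible over both factors

`exists_ns_of`: for general `c` the quadratic equation over `x` has no root which is a rational
function of `x`.
-/

namespace Pool.Agent.Helper77.HN

open Pool.Agent.Helper28.HN Pool.Agent.Helper47.HN MvPolynomial

variable {m : ℕ}

theorem ns_of_cfg {L : Type*} [Field L] [CharZero L] (hm : 4 ≤ m) (c : Ix m → L) (k : Un m → L)
    (hE : ∀ i, Eqn c k i = 0) (hP : Pp c k ≠ 0) : NS c :=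
  ns_of_good (good_of_cfg hm c k hE hP)

theorem map_Ap {K L : Type*} [CommRing K] [CommRing L] (f : K →+* L) (c : Ix m → K) :
    map f (Ap c) = Ap (fun e => f (c e)) := by
  rw [Ap, Helper94.HN.map_Ah, Helper94.HN.map_aff]
  simp [Ap]

theorem map_Bp {K L : Type*} [CommRing K] [CommRing L] (f : K →+* L) (c : Ix m → K) :
    map f (Bp c) = Bp (fun e => f (c e)) := by
  rw [Bp, Helper94.HN.map_Bh, Helper94.HN.map_aff]
  simp [Bp]

theorem map_Cp {K L : Type*} [CommRing K] [CommRing L] (f : K →+* L) (c : Ix m → K) :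
    map f (Cp c) = Cp (fun e => f (c e)) := by
  rw [Cp, Helper94.HN.map_Ch, Helper94.HN.map_aff]
  simp [Cp]

/-- It is enough to look at the equation over a larger field. -/
theorem ns_of_map {K L : Type*} [Field K] [Field L] (f : K →+* L) (c : Ix m → K)
    (h : NS (fun e => f (c e))) : NS c := by
  intro r0 r1 hr
  have e := congrArg (map f) hr
  simp only [map_add, map_sub, map_mul, map_pow, map_ofNat, map_zero, map_Ap, map_Bp,
    map_Cp] at e
  obtain ⟨h0, h1⟩ := h _ _ e
  have hf := map_injective (σ := Fin (m + 1)) f f.injective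
  exact ⟨hf (by rw [h0, map_zero]), hf (by rw [h1, map_zero])⟩

theorem Dp_ne_of_map {K L : Type*} [Field K] [Field L] (f : K →+* L) (c : Ix m → K)
    (u : Fin (m + 1) → L) (h : (Mx (fun e => f (c e)) (aff u)).det ≠ 0) : Dp c ≠ 0 := by
  intro h0
  have e := congrArg (eval₂Hom f u) h0
  rw [map_zero, Dp, RingHom.map_det, Helper94.HN.map_Mx, Helper94.HN.map_aff] at e
  simp only [coe_eval₂Hom, eval₂_C, eval₂_X] at e
  exact h e

/-- For general `c` the equation over `x` has no rational root; from the existence of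
configurations. -/
theorem exists_ns_of (hm : 4 ≤ m) (hcfg : ∃ Δ : MvPolynomial (Ix m) ℚ, Δ ≠ 0 ∧
    ∀ (K : Type) [Field K] [NumberField K] (c : Ix m → K), aeval c Δ ≠ 0 →
      ∃ (L : Type) (_ : Field L) (_ : NumberField L) (_ : Algebra K L) (k : Un m → L),
        (∀ i, Eqn (fun e => algebraMap K L (c e)) k i = 0) ∧
        Pp (fun e => algebraMap K L (c e)) k ≠ 0 ∧
        (Matrix.of fun i j => eval k (pderiv j (Gs (fun e => algebraMap K L (c e))
          (ee hm i)))).det ≠ 0) :
    ∃ Δ : MvPolynomial (Ix m) ℚ, Δ ≠ 0 ∧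
    ∀ (K : Type) [Field K] [NumberField K] (c : Ix m → K), aeval c Δ ≠ 0 →
      NS c ∧ Dp c ≠ 0 := by
  obtain ⟨Δ, hΔ, h⟩ := hcfg
  refine ⟨Δ, hΔ, fun K _ _ c hc => ?_⟩
  obtain ⟨L, _, _, _, k, hE, hP, -⟩ := h K c hc
  have g := good_of_cfg hm _ k hE hP
  exact ⟨ns_of_map (algebraMap K L) c (ns_of_good g), Dp_ne_of_map (algebraMap K L) c _ g.hD⟩

end Pool.Agent.Helper77.HN
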